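import Pool.Agent.H329R3.NU.Stmts

/-! Task SeqS of project H329-NU: the sequence of states. -/

open MeasureTheory Set Filter Topology
open scoped RealInnerProductSpace

namespace Pool.Agent.H747R3.NU

open Pool.Agent.H329R3.PM Pool.Agent.H329R3.NU

theorem near_mono {A κ ε ε' : ℝ} {h h' : ℝ × ℝ → ℝ} (hn : Near A κ ε h h') (he : ε ≤ ε') :
    Near A κ ε' h h' :=
  ⟨fun z => (hn.1 z).trans he, fun z hz => (hn.2.1 z hz).trans he,
    fun z hz => (hn.2.2 z hz).trans he⟩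

theorem taskSeqS : TaskSeqS := by
  intro hStep hOrth A κ ε hA hκ hε h0
  have hO : ∀ h : ℝ × ℝ → ℝ, ∃ L : ℝ, St A κ h → 0 ≤ L ∧ ∀ h' : ℝ × ℝ → ℝ, St A κ h' →
      ∀ η : ℝ, 0 ≤ η → (∀ z, |h' z - h z| ≤ η) →
        |∫ z in Om, (W h' z - W h z) * W h z * z.1 ^ 2| ≤ L * η := by
    intro h
    by_cases hs : St A κ h
    · obtain ⟨L, h1, h2⟩ := hOrth A κ h hs
      exact ⟨L, fun _ => ⟨h1, h2⟩⟩
    · exact ⟨0, fun h1 => absurd h1 hs⟩
  choose L hL using hO
  have hS : ∀ (h : ℝ × ℝ → ℝ) (e : ℝ), ∃ h' : ℝ × ℝ → ℝ, St A κ h → 0 < e →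
      St A κ h' ∧ Near A κ e h h' ∧ J h + D A κ h / 8 - e ≤ J h' := by
    intro h e
    by_cases hs : St A κ h ∧ 0 < e
    · obtain ⟨h', h1⟩ := hStep A κ h hA hκ hs.1 e hs.2
      exact ⟨h', fun _ _ => h1⟩
    · exact ⟨h, fun h1 h2 => absurd ⟨h1, h2⟩ hs⟩
  choose nxt hnxt using hS
  let e : ℕ → ℝ → ℝ := fun k c => min (ε * (1 / 2) ^ (k + 1)) (min (c * (1 / 2) ^ (k + 1)) ((1 / 2) ^ k))
  let s : ℕ → (ℝ × ℝ → ℝ) × ℝ := fun n => Nat.rec ((fun _ => 0), 1 / (1 + L fun _ => 0))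
    (fun k p => (nxt p.1 (e k p.2), min p.2 ((1 / 2) ^ (k + 1) / (1 + L (nxt p.1 (e k p.2)))))) n
  have hs1 : ∀ k, (s (k + 1)).1 = nxt (s k).1 (e k (s k).2) := fun _ => rfl
  have hs2 : ∀ k, (s (k + 1)).2 = min (s k).2 ((1 / 2) ^ (k + 1) / (1 + L (s (k + 1)).1)) :=
    fun _ => rfl
  have he : ∀ k c, 0 < c → 0 < e k c := by
    intro k c hc
    refine lt_min (by positivity) (lt_min (by positivity) (by positivity))
  have key : ∀ k, St A κ (s k).1 ∧ 0 < (s k).2 ∧ (s k).2 ≤ (1 / 2) ^ k / (1 + L (s k).1) := by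
    intro k
    induction k with
    | zero =>
      have h1 := (hL (fun _ => 0) h0).1
      refine ⟨h0, ?_, ?_⟩
      · show 0 < 1 / (1 + L fun _ => 0)
        positivity
      · show 1 / (1 + L fun _ => 0) ≤ (1 / 2) ^ 0 / (1 + L fun _ => 0)
        rw [pow_zero]
    | succ k ih =>
      obtain ⟨h1, h2, -⟩ := ih
      have h4 := hnxt (s k).1 (e k (s k).2) h1 (he k _ h2)
      rw [← hs1] at h4
      have h5 := (hL _ h4.1).1
      refine ⟨h4.1, ?_, ?_⟩
      · rw [hs2]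
        exact lt_min h2 (by positivity)
      · rw [hs2]
        exact min_le_right _ _
  have hstep : ∀ k, Near A κ (e k (s k).2) (s k).1 (s (k + 1)).1 ∧
      J (s k).1 + D A κ (s k).1 / 8 - e k (s k).2 ≤ J (s (k + 1)).1 := by
    intro k
    have h4 := hnxt (s k).1 (e k (s k).2) (key k).1 (he k _ (key k).2.1)
    rw [← hs1] at h4
    exact h4.2
  have hanti : Antitone fun k => (s k).2 := antitone_nat_of_succ_le fun k => by
    show (s (k + 1)).2 ≤ (s k).2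
    rw [hs2]
    exact min_le_left _ _
  have hdist : ∀ k l, k ≤ l → ∀ z, |(s l).1 z - (s k).1 z| ≤
      (s k).2 * ((1 / 2) ^ k - (1 / 2) ^ l) := by
    intro k l hkl z
    induction l, hkl using Nat.le_induction with
    | base => simp
    | succ l hkl ih =>
      have h1 := (hstep l).1.1 z
      have h2 : e l (s l).2 ≤ (s l).2 * (1 / 2) ^ (l + 1) :=
        (min_le_right _ _).trans (min_le_left _ _)
      have h3 : (s l).2 * (1 / 2 : ℝ) ^ (l + 1) ≤ (s k).2 * (1 / 2) ^ (l + 1) :=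
        mul_le_mul_of_nonneg_right (hanti hkl) (by positivity)
      have h4 : |(s (l + 1)).1 z - (s k).1 z| ≤ |(s (l + 1)).1 z - (s l).1 z| +
          |(s l).1 z - (s k).1 z| := by
        have := abs_add_le ((s (l + 1)).1 z - (s l).1 z) ((s l).1 z - (s k).1 z)
        rwa [sub_add_sub_cancel] at this
      have h5 : (1 / 2 : ℝ) ^ l = 2 * (1 / 2) ^ (l + 1) := by
        rw [pow_succ]; ring
      calc |(s (l + 1)).1 z - (s k).1 z| ≤ (s k).2 * (1 / 2) ^ (l + 1) +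
            (s k).2 * ((1 / 2) ^ k - (1 / 2) ^ l) := by linarith
        _ = (s k).2 * ((1 / 2) ^ k - (1 / 2) ^ (l + 1)) := by
            rw [h5]; ring
  refine ⟨fun k => (s k).1, rfl, fun k => (key k).1, fun k => ?_, fun k => ?_, fun k l hkl => ?_⟩
  · exact near_mono (hstep k).1 (min_le_left _ _)
  · have h1 := (hstep k).2
    have h2 : e k (s k).2 ≤ (1 / 2) ^ k := (min_le_right _ _).trans (min_le_right _ _)
    show J (s k).1 + D A κ (s k).1 / 8 - (1 / 2) ^ k ≤ J (s (k + 1)).1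
    linarith
  · obtain ⟨h1, h2, h3⟩ := key k
    obtain ⟨h4, h5⟩ := hL _ h1
    have h6 : ∀ z, |(s l).1 z - (s k).1 z| ≤ (s k).2 := by
      intro z
      refine (hdist k l hkl z).trans ?_
      have h7 : (1 / 2 : ℝ) ^ k ≤ 1 := pow_le_one₀ (by norm_num) (by norm_num)
      have h8 : (0 : ℝ) ≤ (1 / 2) ^ l := by positivity
      calc (s k).2 * ((1 / 2) ^ k - (1 / 2) ^ l) ≤ (s k).2 * 1 :=
            mul_le_mul_of_nonneg_left (by linarith) h2.le
        _ = (s k).2 := mul_one _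
    have h7 := h5 _ (key l).1 _ h2.le h6
    have h8 : L (s k).1 * (s k).2 ≤ (1 / 2) ^ k := by
      have h9 : (s k).2 * (1 + L (s k).1) ≤ (1 / 2) ^ k := by
        rwa [le_div_iff₀ (by linarith)] at h3
      nlinarith
    show -(1 / 2) ^ k ≤ ∫ z in Om, (W (s l).1 z - W (s k).1 z) * W (s k).1 z * z.1 ^ 2
    have h10 := (abs_le.1 h7).1
    linarith

end Pool.Agent.H747R3.NU
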